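import Pool.Agent.H459.TWR.Deg
import Pool.Agent.H459.UF.Tower

/-!
# Residue degrees in base changes of extensions of dihedral type (helper459)
-/

set_option autoImplicit false
set_option linter.all false

open NumberField IsDedekindDomain
open scoped Pointwise

namespace Pool.Agent.H459.TWR

open Pool.Agent.H459.UF (below mem_below)

/-- the residue characteristic -/
theorem charP_res {M : Type} [Field M] [NumberField M] {q : ℕ} (hq : q.Prime)
    {P : Ideal (𝓞 M)} (hP : P.IsPrime) (hqP : (q : 𝓞 M) ∈ P) : CharP (𝓞 M ⧸ P) q := by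
  haveI : Nontrivial (𝓞 M ⧸ P) := Ideal.Quotient.nontrivial_iff.2 hP.ne_top
  have hq0 : (q : 𝓞 M ⧸ P) = 0 := by
    have := Ideal.Quotient.eq_zero_iff_mem.2 hqP
    rwa [map_natCast] at this
  rcases CharP.exists (𝓞 M ⧸ P) with ⟨p, hp⟩
  have h1 : p ∣ q := (CharP.cast_eq_zero_iff _ p q).1 hq0
  rcases (Nat.dvd_prime hq).1 h1 with h2 | h2
  · exfalso
    rw [h2] at hp
    have h3 := CharP.cast_eq_zero (𝓞 M ⧸ P) 1
    rw [Nat.cast_one] at h3
    exact one_ne_zero h3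
  · rwa [h2] at hp

/-- the root of `d` in a residue field -/
theorem root_res {K : Type} [Field K] [NumberField K] {d : ℤ} {s : 𝓞 K} (hs : s ^ 2 = (d : 𝓞 K))
    {q : ℕ} (hq : q.Prime) (hq2 : q % 2 = 1) (hqd : (q : ℤ) ∣ d ^ ((q - 1) / 2) + 1)
    {P : Ideal (𝓞 K)} (hP : P.IsPrime) (hqP : (q : 𝓞 K) ∈ P) :
    (Ideal.Quotient.mk P s) ^ q = -(Ideal.Quotient.mk P s) ∧
      -(Ideal.Quotient.mk P s) ≠ Ideal.Quotient.mk P s := by
  haveI : IsDomain (𝓞 K ⧸ P) := Ideal.Quotient.isDomain P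
  haveI := charP_res hq hP hqP
  obtain ⟨t, ht⟩ : ∃ t, t = Ideal.Quotient.mk P s := ⟨_, rfl⟩
  rw [← ht]
  have ht2 : t ^ 2 = (d : 𝓞 K ⧸ P) := by
    rw [ht, ← map_pow, hs, map_intCast]
  have hdq : (d : 𝓞 K ⧸ P) ^ ((q - 1) / 2) = -1 := by
    have h1 : (((d ^ ((q - 1) / 2) + 1 : ℤ)) : 𝓞 K ⧸ P) = 0 :=
      (CharP.intCast_eq_zero_iff _ q _).2 hqd
    push_cast at h1
    exact eq_neg_of_add_eq_zero_left h1
  have htq : t ^ q = -t := by
    have e : q = 2 * ((q - 1) / 2) + 1 := by omega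
    have e2 : t ^ (2 * ((q - 1) / 2) + 1) = -t := by
      rw [pow_succ, pow_mul, ht2, hdq]
      ring
    rw [← e] at e2
    exact e2
  refine ⟨htq, fun h => ?_⟩
  have h20 : (2 : 𝓞 K ⧸ P) ≠ 0 := by
    intro h
    have h1 : ((2 : ℕ) : 𝓞 K ⧸ P) = 0 := by exact_mod_cast h
    rw [CharP.cast_eq_zero_iff _ q] at h1
    have := Nat.le_of_dvd (by norm_num) h1
    have := hq.two_le
    omega
  have hq3 : 3 ≤ q := by
    have := hq.two_le
    omega
  have ht0 : t ≠ 0 := by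
    intro h0
    rw [h0] at ht2
    have h1 : (d : 𝓞 K ⧸ P) = 0 := by rw [← ht2]; ring
    rw [h1, zero_pow (by omega)] at hdq
    have h2 : (1 : 𝓞 K ⧸ P) = 0 := by
      rw [← neg_eq_zero, ← hdq]
    exact one_ne_zero h2
  have h1 : 2 * t = 0 := by linear_combination (-1 : 𝓞 K ⧸ P) * h
  exact (mul_ne_zero h20 ht0) h1

/-- the Frobenius elements are involutions -/
theorem frob_two {L : Type} [Field L] [NumberField L] [IsGalois ℚ L] {d : ℤ} {s : 𝓞 L}
    (hs : s ^ 2 = (d : 𝓞 L))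
    (hdi : ∀ σ : L ≃ₐ[ℚ] L, σ (s : L) ≠ s → ∀ x, σ (σ x) = x)
    {q : ℕ} (hq : q.Prime) (hq2 : q % 2 = 1) (hqd : (q : ℤ) ∣ d ^ ((q - 1) / 2) + 1)
    (P : HeightOneSpectrum (𝓞 L)) (hqP : (q : 𝓞 L) ∈ P.asIdeal) (z : 𝓞 L) :
    z ^ (q ^ 2) - z ∈ P.asIdeal := by
  obtain ⟨φ, hφ⟩ := exists_frob q hq P hqP
  obtain ⟨h1, h2⟩ := root_res hs hq hq2 hqd P.isPrime hqP
  have hfr : ∀ z : 𝓞 L, Ideal.Quotient.mk P.asIdeal (φ • z) =
      Ideal.Quotient.mk P.asIdeal z ^ q := by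
    intro z
    rw [← map_pow]
    exact Ideal.Quotient.eq.2 (hφ z)
  have hne : φ (s : L) ≠ s := by
    intro h
    have h3 : φ • s = s := RingOfIntegers.ext h
    have h4 := hfr s
    rw [h3, h1] at h4
    exact h2 h4.symm
  have hinv := hdi φ hne
  have h5 : φ • (φ • z) = z := RingOfIntegers.ext (hinv (z : L))
  have h6 := hfr (φ • z)
  rw [h5, hfr z] at h6
  rw [← Ideal.Quotient.eq, map_pow, pow_two q, pow_mul]
  exact h6.symm

/-- the inertia groups of unramified primes are trivial -/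
theorem iner_one {L : Type} [Field L] [NumberField L] [IsGalois ℚ L] {q : ℕ} (hq : q.Prime)
    (P : HeightOneSpectrum (𝓞 L)) (hqP : (q : 𝓞 L) ∈ P.asIdeal) (hqP2 : (q : 𝓞 L) ∉ P.asIdeal ^ 2)
    (σ : L ≃ₐ[ℚ] L) (hσ : ∀ z : 𝓞 L, σ • z - z ∈ P.asIdeal) : σ = 1 := by
  obtain ⟨p, hp⟩ : ∃ p : Ideal ℤ, p = Ideal.span {(q : ℤ)} := ⟨_, rfl⟩
  have hpm : p.IsMaximal := by
    have : Fact q.Prime := ⟨hq⟩
    rw [hp]
    exact Int.ideal_span_isMaximal_of_prime q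
  haveI := hpm.isPrime
  haveI := P.isPrime
  haveI hlo : P.asIdeal.LiesOver p := ⟨by rw [hp, under_eq q hq P.asIdeal P.isPrime hqP]⟩
  have hp0 : p ≠ ⊥ := by
    rw [hp, Ne, Ideal.span_singleton_eq_bot]
    exact_mod_cast hq.ne_zero
  haveI : Finite (ℤ ⧸ p) := Ideal.finiteQuotientOfFreeOfNeBot p hp0
  have h1 : Ideal.ramificationIdx' p P.asIdeal = 1 := by
    refine Ideal.ramificationIdx'_spec ?_ ?_
    · rw [pow_one, Ideal.map_le_iff_le_comap, hp, Ideal.span_singleton_le_iff_mem, Ideal.mem_comap,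
        map_natCast]
      exact hqP
    · intro h
      apply hqP2
      have h2 := h (Ideal.mem_map_of_mem (algebraMap ℤ (𝓞 L)) (show (q : ℤ) ∈ p by
        rw [hp]
        exact Ideal.mem_span_singleton_self _))
      rwa [map_natCast] at h2
  have h2 : P.asIdeal.ramificationIdx ℤ = 1 := by
    rw [← Ideal.ramificationIdx'_eq_ramificationIdx p P.asIdeal hp0, h1]
  have h3 : Nat.card (Ideal.inertia (L ≃ₐ[ℚ] L) P.asIdeal) = 1 := by
    rw [Ideal.card_inertia_eq_ramificationIdxIn p P.asIdeal,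
      Ideal.ramificationIdxIn_eq_ramificationIdx p P.asIdeal (L ≃ₐ[ℚ] L), h2]
  have h4 : σ ∈ Ideal.inertia (L ≃ₐ[ℚ] L) P.asIdeal := fun z => hσ z
  have h5 := Nat.card_eq_one_iff_unique.1 h3
  have h6 := h5.1.elim (⟨σ, h4⟩ : Ideal.inertia (L ≃ₐ[ℚ] L) P.asIdeal) 1
  exact congrArg Subtype.val h6

theorem pow_odd_iter {k : Type} [CommRing k] {q : ℕ} (hq2 : q % 2 = 1) {t : k} (ht : t ^ q = -t) (m : ℕ) :
    t ^ (q ^ (2 * m + 1)) = -t := by
  have hodd : Odd q := Nat.odd_iff.2 hq2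
  induction m with
  | zero => simpa using ht
  | succ m ih =>
    have e : q ^ (2 * (m + 1) + 1) = q ^ (2 * m + 1) * q * q := by ring
    rw [e, pow_mul, pow_mul, ih, hodd.neg_pow, ht, neg_neg, ht]

/-- **Base change.** `M = F L`, `L / ℚ` of dihedral type. -/
theorem degB (F M : Type) [Field F] [NumberField F] [Field M] [NumberField M] [Algebra F M]
    [IsGalois F M] (L : IntermediateField ℚ M) [IsGalois ℚ L]
    (hgen : IntermediateField.adjoin F (L : Set M) = ⊤) (d : ℤ) (y : 𝓞 F)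
    (hy : y ^ 2 = (d : 𝓞 F)) (s : L) (hs : (s : M) = algebraMap F M (y : F))
    (hdi : ∀ σ : L ≃ₐ[ℚ] L, σ s ≠ s → ∀ x, σ (σ x) = x)
    (q : ℕ) (hq : q.Prime) (hq2 : q % 2 = 1) (hqd : (q : ℤ) ∣ d ^ ((q - 1) / 2) + 1)
    (hunr : ∀ P : HeightOneSpectrum (𝓞 L), (q : 𝓞 L) ∉ P.asIdeal ^ 2)
    (P : HeightOneSpectrum (𝓞 M)) (hqP : (q : 𝓞 M) ∈ P.asIdeal) (x : 𝓞 M) :
    ∃ z : 𝓞 F, x - algebraMap (𝓞 F) (𝓞 M) z ∈ P.asIdeal := by
  classical
  -- the root of `d` in `L`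
  have hs2 : s ^ 2 = (d : L) := by
    apply (algebraMap L M).injective
    rw [map_pow, map_intCast]
    have e1 : algebraMap L M s = algebraMap F M (y : F) := hs
    have e2 : ((y : F)) ^ 2 = (d : F) := by
      have := congrArg (algebraMap (𝓞 F) F) hy
      rwa [map_pow, map_intCast] at this
    rw [e1, ← map_pow, e2, map_intCast]
  have hsi : IsIntegral ℤ s := by
    refine ⟨Polynomial.X ^ 2 - Polynomial.C d, Polynomial.monic_X_pow_sub_C d two_ne_zero, ?_⟩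
    rw [Polynomial.eval₂_sub, Polynomial.eval₂_X_pow, Polynomial.eval₂_C, hs2]
    simp
  obtain ⟨s', hs'⟩ : ∃ s' : 𝓞 L, (s' : L) = s := ⟨⟨s, hsi⟩, rfl⟩
  have hs'2 : s' ^ 2 = (d : 𝓞 L) := by
    apply RingOfIntegers.ext
    show algebraMap (𝓞 L) L (s' ^ 2) = algebraMap (𝓞 L) L (d : 𝓞 L)
    rw [map_pow, map_intCast]
    show (s' : L) ^ 2 = _
    rw [hs', hs2]
  -- the primes
  obtain ⟨Q, hQ⟩ : ∃ Q, Q = below L P := ⟨_, rfl⟩
  obtain ⟨v, hv⟩ : ∃ v, v = below F P := ⟨_, rfl⟩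
  have hqQ : (q : 𝓞 L) ∈ Q.asIdeal := by rw [hQ, mem_below, map_natCast]; exact hqP
  have hqv : (q : 𝓞 F) ∈ v.asIdeal := by rw [hv, mem_below, map_natCast]; exact hqP
  have hL := frob_two hs'2 (by rw [hs']; exact hdi) hq hq2 hqd Q hqQ
  -- the Frobenius element of `P`
  haveI : Finite (𝓞 M ⧸ P.asIdeal) := Ideal.finiteQuotientOfFreeOfNeBot P.asIdeal P.ne_bot
  haveI : Finite (𝓞 F ⧸ v.asIdeal) := Ideal.finiteQuotientOfFreeOfNeBot v.asIdeal v.ne_bot
  haveI := P.isPrime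
  haveI := P.isMaximal
  haveI := v.isMaximal
  letI : Field (𝓞 M ⧸ P.asIdeal) := Ideal.Quotient.field P.asIdeal
  letI : Field (𝓞 F ⧸ v.asIdeal) := Ideal.Quotient.field v.asIdeal
  haveI : Fintype (𝓞 M ⧸ P.asIdeal) := Fintype.ofFinite _
  haveI : Fintype (𝓞 F ⧸ v.asIdeal) := Fintype.ofFinite _
  haveI := charP_res hq v.isPrime hqv
  obtain ⟨φ, hφ⟩ := IsArithFrobAt.exists_of_isInvariant (𝓞 F) (M ≃ₐ[F] M) P.asIdeal
  obtain ⟨N, hN⟩ : ∃ N : ℕ, N = Fintype.card (𝓞 F ⧸ v.asIdeal) := ⟨_, rfl⟩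
  have hund : P.asIdeal.under (𝓞 F) = v.asIdeal := by rw [hv]; rfl
  have hfr : ∀ z : 𝓞 M, φ • z - z ^ N ∈ P.asIdeal := by
    intro z
    have h1 := hφ z
    rw [hund, Nat.card_eq_fintype_card, ← hN] at h1
    exact h1
  -- `N = q ^ (2 m)`
  obtain ⟨n, -, hn⟩ := FiniteField.card (𝓞 F ⧸ v.asIdeal) q
  obtain ⟨t1, t2⟩ := root_res hy hq hq2 hqd v.isPrime hqv
  have hev : ∃ m : ℕ, N = (q ^ 2) ^ m := by
    rcases Nat.even_or_odd' (n : ℕ) with ⟨m, hm | hm⟩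
    · exact ⟨m, by rw [hN, hn, hm, pow_mul]⟩
    · exfalso
      apply t2
      have h1 := pow_odd_iter hq2 t1 m
      rw [← hm, ← hn, FiniteField.pow_card] at h1
      exact h1.symm
  obtain ⟨m, hm⟩ := hev
  have hLN : ∀ z : 𝓞 L, z ^ N - z ∈ Q.asIdeal := by
    intro z
    rw [hm]
    have : ∀ j : ℕ, z ^ ((q ^ 2) ^ j) - z ∈ Q.asIdeal := by
      intro j
      induction j with
      | zero => rw [pow_zero, pow_one, sub_self]; exact Ideal.zero_mem _
      | succ j ih =>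
        have h1 := hL (z ^ ((q ^ 2) ^ j))
        have e : z ^ ((q ^ 2) ^ (j + 1)) - z = ((z ^ ((q ^ 2) ^ j)) ^ (q ^ 2) - z ^ ((q ^ 2) ^ j)) +
            (z ^ ((q ^ 2) ^ j) - z) := by
          rw [pow_succ (q ^ 2) j, pow_mul z ((q ^ 2) ^ j) (q ^ 2)]
          exact (sub_add_sub_cancel _ _ _).symm
        rw [e]
        exact Ideal.add_mem _ h1 ih
    exact this m
  -- the restriction to `L` is trivial
  obtain ⟨σ, hσ⟩ : ∃ σ : L ≃ₐ[ℚ] L, ∀ z : L, algebraMap L M (σ z) = φ (algebraMap L M z) :=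
    ⟨(φ.restrictScalars ℚ).restrictNormal L, fun z =>
      AlgEquiv.restrictNormal_commutes (φ.restrictScalars ℚ) L z⟩
  have hσ1 : σ = 1 := by
    refine iner_one hq Q hqQ (hunr Q) σ fun z => ?_
    rw [hQ, mem_below, map_sub]
    have e1 : algebraMap (𝓞 L) (𝓞 M) (σ • z) = φ • (algebraMap (𝓞 L) (𝓞 M) z) :=
      RingOfIntegers.ext (hσ (z : L))
    rw [e1]
    have h1 := hfr (algebraMap (𝓞 L) (𝓞 M) z)
    have h2 := hLN z
    rw [hQ, mem_below, map_sub, map_pow] at h2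
    have := Ideal.add_mem _ h1 h2
    simpa using this
  have hφ1 : ∀ z : M, φ z = z := by
    have h1 : IntermediateField.adjoin F (L : Set M) ≤
        IntermediateField.fixedField (Subgroup.zpowers φ) := by
      rw [IntermediateField.adjoin_le_iff]
      intro z hz
      rw [SetLike.mem_coe, IntermediateField.mem_fixedField_iff]
      have h2 : φ z = z := by
        have h3 := hσ ⟨z, hz⟩
        rw [hσ1] at h3
        exact h3.symm
      intro τ hτ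
      obtain ⟨j, rfl⟩ := Subgroup.mem_zpowers_iff.1 hτ
      have h4 : φ ∈ MulAction.stabilizer (M ≃ₐ[F] M) z := h2
      exact (Subgroup.zpow_mem _ h4 j : (φ ^ j) ∈ MulAction.stabilizer (M ≃ₐ[F] M) z)
    intro z
    have h2 : z ∈ IntermediateField.fixedField (Subgroup.zpowers φ) :=
      h1 (by rw [hgen]; exact IntermediateField.mem_top)
    rw [IntermediateField.mem_fixedField_iff] at h2
    exact h2 φ (Subgroup.mem_zpowers φ)
  have hpow : ∀ a : 𝓞 M ⧸ P.asIdeal, a ^ N = a := by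
    intro a
    obtain ⟨z, rfl⟩ := Ideal.Quotient.mk_surjective a
    have h1 : φ • z = z := RingOfIntegers.ext (hφ1 (z : M))
    have h2 := hfr z
    rw [h1] at h2
    rw [← map_pow]
    exact (Ideal.Quotient.eq.2 h2).symm
  -- counting
  have hN1 : 1 < N := by
    rw [hN]
    exact Fintype.one_lt_card
  have hcard : Fintype.card (𝓞 M ⧸ P.asIdeal) ≤ N := by
    have h1 : (Finset.univ : Finset (𝓞 M ⧸ P.asIdeal)) ⊆
        (Polynomial.X ^ N - Polynomial.X : Polynomial (𝓞 M ⧸ P.asIdeal)).roots.toFinset := by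
      intro a _
      rw [Multiset.mem_toFinset, Polynomial.mem_roots (FiniteField.X_pow_card_sub_X_ne_zero _ hN1)]
      simp [hpow a]
    have h2 := Finset.card_le_card h1
    rw [Finset.card_univ] at h2
    refine h2.trans ((Multiset.toFinset_card_le _).trans ((Polynomial.card_roots' _).trans ?_))
    rw [FiniteField.X_pow_card_sub_X_natDegree_eq _ hN1]
  obtain ⟨g, hg⟩ : ∃ g : (𝓞 F ⧸ v.asIdeal) →+* (𝓞 M ⧸ P.asIdeal),
      ∀ z : 𝓞 F, g (Ideal.Quotient.mk _ z) = Ideal.Quotient.mk _ (algebraMap (𝓞 F) (𝓞 M) z) :=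
    ⟨Ideal.quotientMap P.asIdeal (algebraMap (𝓞 F) (𝓞 M)) (by rw [hv]; exact le_refl _),
      fun z => Ideal.quotientMap_mk⟩
  have hsurj : Function.Surjective g := by
    refine ((Fintype.bijective_iff_injective_and_card g).2 ⟨g.injective, ?_⟩).2
    exact le_antisymm (Fintype.card_le_of_injective _ g.injective) (by rw [← hN]; exact hcard)
  obtain ⟨a, ha⟩ := hsurj (Ideal.Quotient.mk _ x)
  obtain ⟨z, rfl⟩ := Ideal.Quotient.mk_surjective a
  refine ⟨z, ?_⟩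
  rw [← Ideal.Quotient.eq, ← ha, hg]

end Pool.Agent.H459.TWR
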