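import Pool.Agent.H459.UF.ExsW
import Pool.Agent.H459.UF.Tower

/-!
# Primes which split completely in the members of a family (helper459)
-/

set_option autoImplicit false
set_option linter.all false

open Polynomial NumberField IsDedekindDomain
open scoped Classical IntermediateField

namespace Pool.Agent.H459.TWR

open Pool.Agent.H459.UF (Unr Deg1 below mem_below exists_above eq_below deg1_of_spl below_below)
open Pool.Agent.N874.QM (Gen SplitMod)

/-- Infinitely many prime numbers split completely in one given field. -/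
theorem inf_spl (F F' : Type) [Field F] [NumberField F] [Field F'] [NumberField F']
    [Algebra F F'] : {q : ℕ | q.Prime ∧ q % 8 = 1 ∧ ∀ v : HeightOneSpectrum (𝓞 F),
      (q : 𝓞 F) ∈ v.asIdeal → Unr F F' v ∧ Deg1 F F' v}.Infinite := by
  obtain ⟨γ, m', δ, hG, hdeg⟩ := Pool.Agent.N160.QM.gen F'
  have hGF : Gen F γ m' δ := by
    refine ⟨?_, hG.monic, hG.root, hG.ne, hG.comb⟩
    rw [eq_top_iff]
    intro x _
    have h1 : x ∈ ℚ⟮γ⟯ := by rw [hG.top]; trivial
    have h2 : ℚ⟮γ⟯ ≤ (F⟮γ⟯).restrictScalars ℚ := by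
      rw [IntermediateField.adjoin_simple_le_iff]
      exact IntermediateField.mem_adjoin_simple_self F γ
    exact h2 h1
  obtain ⟨b, hb⟩ : ∃ b : ℕ, b = (discr F').natAbs + δ := ⟨_, rfl⟩
  refine ((Pool.Agent.N891.QM.infinite_split m' hG.monic).sdiff (Set.finite_Iic b)).mono ?_
  rintro q ⟨⟨h1, h2, h3⟩, h4⟩
  have : Fact q.Prime := ⟨h1⟩
  rw [Set.mem_Iic, not_le] at h4
  refine ⟨h1, h2, fun v hv => ⟨fun P hP => ?_, ?_⟩⟩
  · refine Pool.Agent.N710.PF.not_mem_sq (F := F') h1 (by omega) P.isPrime ?_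
    have := hP (Ideal.mem_map_of_mem (algebraMap (𝓞 F) (𝓞 F')) hv)
    rwa [map_natCast] at this
  · refine deg1_of_spl hGF h1 (Pool.Agent.N891.QM.splitMod_of_splits q m' hG.monic h3)
      (fun hd => ?_) hv
    have := Nat.le_of_dvd (Nat.pos_of_ne_zero hG.ne) hd
    omega

section down

variable {F M M' : Type} [Field F] [NumberField F] [Field M] [NumberField M] [Algebra F M]
  [Field M'] [NumberField M'] [Algebra F M']

theorem down (φ : M →ₐ[F] M') {v : HeightOneSpectrum (𝓞 F)} (h : Unr F M' v ∧ Deg1 F M' v) :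
    Unr F M v ∧ Deg1 F M v := by
  letI : Algebra M M' := φ.toRingHom.toAlgebra
  haveI : IsScalarTower F M M' := IsScalarTower.of_algebraMap_eq fun x => (φ.commutes x).symm
  have hmap : v.asIdeal.map (algebraMap (𝓞 F) (𝓞 M')) =
      (v.asIdeal.map (algebraMap (𝓞 F) (𝓞 M))).map (algebraMap (𝓞 M) (𝓞 M')) := by
    rw [Ideal.map_map, ← IsScalarTower.algebraMap_eq]
  refine ⟨fun P hP => ?_, fun P hP x => ?_⟩
  · obtain ⟨Q, hQ⟩ := exists_above (K := M) M' P
    refine h.1 Q ?_
    rw [hmap]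
    refine (Ideal.map_mono hP).trans ?_
    rw [Ideal.map_pow]
    refine Ideal.pow_right_mono ?_ 2
    rw [Ideal.map_le_iff_le_comap]
    intro a ha
    rw [← hQ] at ha
    exact ha
  · obtain ⟨Q, hQ⟩ := exists_above (K := M) M' P
    obtain ⟨y, hy⟩ := h.2 Q (by
      rw [hmap]
      refine (Ideal.map_mono hP).trans ?_
      rw [Ideal.map_le_iff_le_comap]
      intro a ha
      rw [← hQ] at ha
      exact ha) (algebraMap (𝓞 M) (𝓞 M') x)
    refine ⟨y, ?_⟩
    rw [← hQ, mem_below, map_sub, ← IsScalarTower.algebraMap_apply]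
    exact hy

end down

/-- A family with a largest member. -/
theorem inf_top (F : Type) [Field F] [NumberField F] {ι : Type} (M : ι → Type) [∀ i, Field (M i)]
    [∀ i, NumberField (M i)] [∀ i, Algebra F (M i)] (h : ∃ i, ∀ j, Nonempty (M j →ₐ[F] M i)) :
    {q : ℕ | q.Prime ∧ q % 8 = 1 ∧ ∀ i, ∀ v : HeightOneSpectrum (𝓞 F),
      (q : 𝓞 F) ∈ v.asIdeal → Unr F (M i) v ∧ Deg1 F (M i) v}.Infinite := by
  obtain ⟨i, hi⟩ := h
  refine (inf_spl F (M i)).mono ?_
  rintro q ⟨h1, h2, h3⟩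
  refine ⟨h1, h2, fun j v hv => ?_⟩
  obtain ⟨φ⟩ := hi j
  exact down φ (h3 v hv)

end Pool.Agent.H459.TWR
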