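import Mathlib

/-!
# TWR (helper459), INF: twisting primes
-/

set_option autoImplicit false

namespace Pool.Agent.H241.TWR

open scoped NumberTheorySymbols

/-- a squarefree natural number which is not `1` or `2` has an odd prime divisor -/
theorem exists_odd {D : ℕ} (hD : Squarefree D) (h1 : D ≠ 1) (h2 : D ≠ 2) :
    ∃ l : ℕ, l.Prime ∧ l ≠ 2 ∧ l ∣ D := by
  by_contra hcon
  push Not at hcon
  have hall : ∀ p : ℕ, p.Prime → p ∣ D → p = 2 := by
    intro p hp hpD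
    by_contra h
    exact hcon p hp h hpD
  have h0 : D ≠ 0 := hD.ne_zero
  obtain ⟨p, hp, hpD⟩ := Nat.exists_prime_and_dvd h1
  have hp2 := hall p hp hpD
  subst hp2
  obtain ⟨m, hm⟩ := hpD
  have hm1 : m ≠ 1 := by
    rintro rfl
    exact h2 hm
  obtain ⟨r, hr, hrm⟩ := Nat.exists_prime_and_dvd hm1
  have hr2 := hall r hr (hm ▸ hrm.mul_left 2)
  subst hr2
  obtain ⟨n, hn⟩ := hrm
  have h3 : 2 * 2 ∣ D := ⟨n, by rw [hm, hn]; ring⟩
  have h4 := hD 2 h3
  rw [Nat.isUnit_iff] at h4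
  omega

/-- the core: the symbol of `l * 2 ^ e * m` -/
theorem symb {l m q : ℕ} (hl : l.Prime) (hl2 : l ≠ 2) (hm : m % 2 = 1) (hq : q.Prime)
    (hq8 : q % 8 = 1) (hqm : q % m = 1 % m) (hql : ¬ IsSquare ((q : ℤ) : ZMod l)) (e : ℕ) (d : ℤ)
    (hd : d.natAbs = l * (2 ^ e * m)) : (q : ℤ) ∣ d ^ ((q - 1) / 2) + 1 := by
  have : Fact q.Prime := ⟨hq⟩
  have : Fact l.Prime := ⟨hl⟩
  have hqo : Odd q := Nat.odd_iff.2 (by omega)
  have hq4 : q % 4 = 1 := by omega
  have hlo : Odd l := hl.odd_of_ne_two hl2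
  have hmo : Odd m := Nat.odd_iff.2 hm
  have j1 : J(-1 | q) = 1 := by
    rw [jacobiSym.at_neg_one hqo, ZMod.χ₄_nat_one_mod_four hq4]
  have j2 : J(2 | q) = 1 := by
    rw [jacobiSym.at_two hqo, ZMod.χ₈_nat_eq_if_mod_eight, if_neg (by omega),
      if_pos (Or.inl hq8)]
  have jl : J((l : ℤ) | q) = -1 := by
    rw [← jacobiSym.quadratic_reciprocity_one_mod_four hq4 hlo, ← jacobiSym.legendreSym.to_jacobiSym]
    exact (legendreSym.eq_neg_one_iff l).2 hql
  have jm : J((m : ℤ) | q) = 1 := by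
    rw [← jacobiSym.quadratic_reciprocity_one_mod_four hq4 hmo]
    have h1 : ((q : ℕ) : ℤ) % (m : ℤ) = 1 % (m : ℤ) := by exact_mod_cast hqm
    rw [jacobiSym.mod_left' h1, jacobiSym.one_left]
  have jD : J(((l * (2 ^ e * m) : ℕ) : ℤ) | q) = -1 := by
    push_cast
    rw [jacobiSym.mul_left, jacobiSym.mul_left, jacobiSym.pow_left, jl, j2, jm, one_pow]
    norm_num
  have jd : J(d | q) = -1 := by
    rcases Int.natAbs_eq d with h | h
    · rw [h, hd]; exact jD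
    · rw [h, hd, neg_eq_neg_one_mul, jacobiSym.mul_left, j1, one_mul]; exact jD
  have h5 : legendreSym q d = -1 := by
    rw [jacobiSym.legendreSym.to_jacobiSym]; exact jd
  have h6 := legendreSym.eq_pow q d
  rw [h5] at h6
  have h7 : q / 2 = (q - 1) / 2 := by omega
  rw [h7] at h6
  rw [← ZMod.intCast_zmod_eq_zero_iff_dvd]
  push_cast
  rw [← h6]
  push_cast
  ring

theorem inf (d : ℤ) (hd : Squarefree d) (h1 : d ≠ 1) (h2 : d ≠ -1) (h3 : d ≠ 2) (h4 : d ≠ -2) :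
    {q : ℕ | q.Prime ∧ q % 8 = 1 ∧ (q : ℤ) ∣ d ^ ((q - 1) / 2) + 1}.Infinite := by
  have hD : Squarefree d.natAbs := Int.squarefree_natAbs.2 hd
  obtain ⟨l, hl, hl2, hlD⟩ := exists_odd hD (by omega) (by omega)
  obtain ⟨D', hD'⟩ := hlD
  have hlD' : ¬ l ∣ D' := by
    intro h
    have h5 : l * l ∣ d.natAbs := by
      rw [hD']
      exact mul_dvd_mul_left l h
    have h6 := hD l h5
    rw [Nat.isUnit_iff] at h6
    exact hl.one_lt.ne' h6
  -- the odd part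
  obtain ⟨e, m, hm, hem⟩ : ∃ e m : ℕ, m % 2 = 1 ∧ D' = 2 ^ e * m := by
    have h0 : D' ≠ 0 := by
      rintro rfl
      exact hlD' (dvd_zero l)
    obtain ⟨e, m, hm, hem⟩ := Nat.exists_eq_two_pow_mul_odd h0
    exact ⟨e, m, Nat.odd_iff.1 hm, hem⟩
  have hm0 : 0 < m := by omega
  have hlm : ¬ l ∣ m := fun h => hlD' (hem ▸ h.mul_left _)
  have : Fact l.Prime := ⟨hl⟩
  obtain ⟨u, hu⟩ : ∃ u : ZMod l, ¬ IsSquare u :=
    FiniteField.exists_nonsquare (by rw [ZMod.ringChar_zmod_n]; exact hl2)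
  have hco : Nat.Coprime (8 * m) l := by
    apply Nat.Coprime.symm
    rw [hl.coprime_iff_not_dvd]
    intro h
    rcases hl.dvd_mul.1 h with h5 | h5
    · have h6 : l ∣ 2 ^ 3 := by norm_num; exact h5
      exact hl2 ((Nat.prime_dvd_prime_iff_eq hl Nat.prime_two).1 (hl.dvd_of_dvd_pow h6))
    · exact hlm h5
  obtain ⟨a, ha1, ha2⟩ := Nat.chineseRemainder hco 1 u.val
  have hau : ((a : ℕ) : ZMod l) = u := by
    have h5 := (ZMod.natCast_eq_natCast_iff _ _ _).2 ha2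
    rw [h5, ZMod.natCast_zmod_val]
  have hacop : Nat.Coprime a (8 * m * l) := by
    apply Nat.Coprime.mul_right
    · rw [Nat.Coprime, ha1.gcd_eq, Nat.gcd_one_left]
    · apply Nat.Coprime.symm
      rw [hl.coprime_iff_not_dvd]
      intro h5
      have h6 : ((a : ℕ) : ZMod l) = 0 := (ZMod.natCast_eq_zero_iff _ _).2 h5
      rw [hau] at h6
      rw [h6] at hu
      exact hu (IsSquare.zero)
  have hN : 8 * m * l ≠ 0 := by
    have := hl.pos
    positivity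
  have : NeZero (8 * m * l) := ⟨hN⟩
  have hunit : IsUnit ((a : ℕ) : ZMod (8 * m * l)) := (ZMod.isUnit_iff_coprime _ _).2 hacop
  refine (Nat.infinite_setOfPred_prime_and_eq_mod hunit).mono ?_
  rintro q ⟨hq, hqa⟩
  have hqa' : q ≡ a [MOD 8 * m * l] := (ZMod.natCast_eq_natCast_iff _ _ _).1 hqa
  have q1 : q ≡ 1 [MOD 8 * m] := (hqa'.of_mul_right l).trans ha1
  have q8 : q % 8 = 1 := by
    have h5 : q ≡ 1 [MOD 8] := q1.of_mul_right m
    have h6 : q % 8 = 1 % 8 := h5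
    omega
  have qm : q % m = 1 % m := by
    have h5 : q ≡ 1 [MOD m] := q1.of_mul_left 8
    exact h5
  have ql : ¬ IsSquare ((q : ℤ) : ZMod l) := by
    have h5 : q ≡ a [MOD l] := hqa'.of_mul_left (8 * m)
    have h6 : ((q : ℕ) : ZMod l) = ((a : ℕ) : ZMod l) := (ZMod.natCast_eq_natCast_iff _ _ _).2 h5
    have h7 : ((q : ℤ) : ZMod l) = u := by
      push_cast
      rw [h6, hau]
    rw [h7]
    exact hu
  exact ⟨hq, q8, symb hl hl2 hm hq q8 qm ql e d (by rw [hD', hem])⟩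

end Pool.Agent.H241.TWR
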