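import Pool.Agent.H459.TWR.Main
import Pool.Agent.H459.TWR.Alt
import Pool.Agent.H459.TWR.Bch
import Pool.Agent.H459.TWR.Inf

/-!
# Extensions of dihedral type (helper459)
-/

set_option autoImplicit false
set_option linter.all false

open NumberField IsDedekindDomain
open scoped Classical Pointwise

namespace Pool.Agent.H459.TWR

open Pool.Agent.H459.UF (Unr Deg1 below mem_below)
open Pool.Agent.H459.UT (exists_kI)

/-- Infinitely many primes `q ≡ 1 mod 8` split completely in all members of a family of extensions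
`M i = F L i`, where the `L i / ℚ` are of dihedral type. -/
theorem inf_dih (F : Type) [Field F] [NumberField F] {ι : Type} (M : ι → Type) [∀ i, Field (M i)]
    [∀ i, NumberField (M i)] [∀ i, Algebra F (M i)] [∀ i, IsGalois F (M i)]
    (hram : {v : HeightOneSpectrum (𝓞 F) | ∃ i, ¬ Unr F (M i) v}.Finite)
    (d : ℤ) (hd : Squarefree d) (h1 : d ≠ 1) (h2 : d ≠ -1) (h3 : d ≠ 2) (h4 : d ≠ -2)
    (y : 𝓞 F) (hy : y ^ 2 = (d : 𝓞 F)) (L : ∀ i, IntermediateField ℚ (M i))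
    (hur : {q : ℕ | q.Prime ∧ ∃ i, ∃ P : HeightOneSpectrum (𝓞 (L i)),
      (q : 𝓞 (L i)) ∈ P.asIdeal ^ 2}.Finite)
    (hL : ∀ i, IsGalois ℚ (L i) ∧ IntermediateField.adjoin F (L i : Set (M i)) = ⊤ ∧
      ∃ s : L i, (s : M i) = algebraMap F (M i) (y : F) ∧
        ∀ σ : L i ≃ₐ[ℚ] L i, σ s ≠ s → ∀ x, σ (σ x) = x) :
    {q : ℕ | q.Prime ∧ q % 8 = 1 ∧ ∀ i, ∀ v : HeightOneSpectrum (𝓞 F),
      (q : 𝓞 F) ∈ v.asIdeal → Unr F (M i) v ∧ Deg1 F (M i) v}.Infinite := by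
  obtain ⟨k, hk, hkunr⟩ := exists_kI M hram
  refine ((Pool.Agent.H241.TWR.inf d hd h1 h2 h3 h4).sdiff
    ((Set.finite_Iic k).union hur)).mono ?_
  rintro q ⟨⟨a1, a2, a3⟩, a4⟩
  rw [Set.mem_union, not_or, Set.mem_Iic, not_le] at a4
  obtain ⟨a4, a5⟩ := a4
  refine ⟨a1, a2, fun i v hv => ⟨hkunr i v ?_, fun P hP x => ?_⟩⟩
  · intro hkv
    have hc : IsCoprime (q : ℤ) (k : ℤ) := by
      rw [Nat.isCoprime_iff_coprime]
      exact (Nat.Prime.coprime_iff_not_dvd a1).2 fun h => by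
        have := Nat.le_of_dvd hk h
        omega
    obtain ⟨u, w, huw⟩ := hc
    apply v.isPrime.ne_top
    rw [Ideal.eq_top_iff_one]
    have e : (1 : 𝓞 F) = (u : 𝓞 F) * (q : 𝓞 F) + (w : 𝓞 F) * (k : 𝓞 F) := by
      exact_mod_cast (congrArg (fun z : ℤ => (z : 𝓞 F)) huw).symm
    rw [e]
    exact Ideal.add_mem _ (Ideal.mul_mem_left _ _ hv) (Ideal.mul_mem_left _ _ hkv)
  · obtain ⟨hg, hgen, s, hs, hdi⟩ := hL i
    haveI := hg
    have hqP : (q : 𝓞 (M i)) ∈ P.asIdeal := by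
      have := hP (Ideal.mem_map_of_mem (algebraMap (𝓞 F) (𝓞 (M i))) hv)
      rwa [map_natCast] at this
    exact degB F (M i) (L i) hgen d y hy s hs hdi q a1 (by omega) a3
      (fun Q hQ => a5 ⟨a1, i, Q, hQ⟩) P hqP x

end Pool.Agent.H459.TWR
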