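import Pool.Agent.H459.UF.ExsW

/-!
# Twisting primes from an infinite set (helper459)
-/

set_option autoImplicit false
set_option linter.all false

open Polynomial NumberField IsDedekindDomain
open scoped Classical IntermediateField

namespace Pool.Agent.H459.TWR

open Pool.Agent.N783.PF (Bd Cg sp rd Ht GoodS GoodF Fam)

theorem exsI (F : Type) [Field F] [NumberField F] (Q : Set ℕ)
    (hQ : {q : ℕ | q.Prime ∧ q % 8 = 1 ∧ q ∈ Q}.Infinite) (g W m : ℕ) (hg : 1 ≤ g) :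
    ∃ (S : Finset ℕ) (𝔮 : ℕ → Ideal (𝓞 F)) (h P : ℕ → (𝓞 F)[X]),
      GoodS g W S 𝔮 h P ∧ S.card = m ∧ ∀ q ∈ S, q ∈ Q := by
  obtain ⟨b, hb⟩ : ∃ b : ℕ, b = W + (2 * g + 1) + (discr F).natAbs := ⟨_, rfl⟩
  obtain ⟨S, hS1, hS2⟩ := (hQ.sdiff (Set.finite_Iic b)).exists_subset_card_eq m
  have hS : ∀ q ∈ S, q.Prime ∧ b < q ∧ q % 8 = 1 ∧ q ∈ Q := by
    intro q hq
    obtain ⟨⟨h1, h2, h3⟩, h4⟩ := hS1 hq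
    refine ⟨h1, ?_, h2, h3⟩
    rw [Set.mem_Iic] at h4
    omega
  have hdata : ∀ q : ℕ, ∃ (𝔮 : Ideal (𝓞 F)) (h A : (𝓞 F)[X]), q ∈ S →
    (∀ 𝔭 : Ideal (𝓞 F), 𝔭.IsPrime → (q : 𝓞 F) ∉ 𝔭 ^ 2) ∧
    𝔮.IsPrime ∧ (q : 𝓞 F) ∈ 𝔮 ∧
    h.Monic ∧ h.natDegree = 2 * g ∧ Irreducible (rd 𝔮 h) ∧
    A.Monic ∧ A.natDegree = 2 * g + 1 ∧ A.coeff (2 * g) = 0 ∧
    Cg 𝔮 A (X * h) ∧
    ∀ 𝔭 : Ideal (𝓞 F), 𝔭.IsPrime → (q : 𝓞 F) ∈ 𝔭 → 𝔭 ≠ 𝔮 → Irreducible (rd 𝔭 A) := by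
    intro q
    by_cases hq : q ∈ S
    · obtain ⟨h1, h2, h3, -⟩ := hS q hq
      obtain ⟨𝔮, h, A, hh⟩ := Pool.Agent.N710.PF.exists_data F g q hg h1 (by omega) (by omega)
      exact ⟨𝔮, h, A, fun _ => hh⟩
    · exact ⟨⊥, 0, 0, fun h => absurd h hq⟩
  choose 𝔮 h A hh using hdata
  refine ⟨S, 𝔮, h, A, fun q hq => ?_, hS2, fun q hq => (hS q hq).2.2.2⟩
  obtain ⟨h1, h2, h3, -⟩ := hS q hq
  exact ⟨h1, by omega, by omega, h3, hh q hq⟩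

end Pool.Agent.H459.TWR
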