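import Pool.Agent.H459.TWR.Bet

/-!
# The conditions at the small primes for a directed family of extensions (helper459)
-/

set_option autoImplicit false
set_option linter.all false

open Polynomial IsDedekindDomain NumberField WithZero MulAction
open scoped Classical Pointwise

namespace Pool.Agent.H459.TWR

open Pool.Agent.H459.UT
open Pool.Agent.H459.UF (below mem_below val_pow le_one_of_lt exists_loc rd_pol)
open Pool.Agent.N783.PF (Cg sp rd Ht fF)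
open Pool.Agent.N61.PF (pol pol_monic pol_natDegree pol_coeff0 pol_coeff1 pol_coeff2)

/-- **The conditions at the small primes.** -/
theorem gfI (F : Type) [Field F] [NumberField F] {ι : Type} (M : ι → Type) [∀ i, Field (M i)]
    [∀ i, NumberField (M i)] [∀ i, Algebra F (M i)] [∀ i, IsGalois F (M i)]
    (hdir : ∀ i j, ∃ k, Nonempty (M i →ₐ[F] M k) ∧ Nonempty (M j →ₐ[F] M k))
    (hcyc : ∀ i, ∀ w : HeightOneSpectrum (𝓞 (M i)), (2 : 𝓞 (M i)) ∈ w.asIdeal →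
      IsCyclic (stabilizer (M i ≃ₐ[F] M i) w.asIdeal)) (k M₀ : ℕ) (hk : 0 < k) :
    ∃ (W : ℕ) (f₁ : (𝓞 F)[X]), GoodT 1 W (fun v => (2 : 𝓞 F) ∈ v.asIdeal) f₁ ∧ k ∣ W ∧ 3 ∣ W ∧
      (∀ p : ℕ, p.Prime → p ≤ M₀ → p ∣ W) ∧
      (∀ v : HeightOneSpectrum (𝓞 F), (W : 𝓞 F) ∈ v.asIdeal → (2 : 𝓞 F) ∉ v.asIdeal →
        Irreducible (rd v.asIdeal f₁)) ∧
      ∀ f : (𝓞 F)[X], Cg (sp F W) f f₁ → ∀ v : HeightOneSpectrum (𝓞 F), (2 : 𝓞 F) ∈ v.asIdeal →
        TF v (f.coeff 1 : F) (f.coeff 0 : F) ∧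
        ∀ i, NN (M i) v (27 + 3 * (f.coeff 1 : F) + (f.coeff 0 : F)) := by
  have hB : ∀ v : HeightOneSpectrum (𝓞 F), ∃ β : 𝓞 F, (2 : 𝓞 F) ∈ v.asIdeal → β ≠ 0 ∧
      v.valuation F (β : F) < v.valuation F 64 ∧ ∀ i, NN (M i) v (β : F) := by
    intro v
    by_cases h2 : (2 : 𝓞 F) ∈ v.asIdeal
    · obtain ⟨β, hβ⟩ := dir_beta M hdir hcyc h2
      exact ⟨β, fun _ => hβ⟩
    · exact ⟨1, fun h => absurd h h2⟩
  choose β hβ using hB
  have hn : ∀ v : HeightOneSpectrum (𝓞 F), ∃ n : ℕ, (2 : 𝓞 F) ∈ v.asIdeal →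
      ∀ x : 𝓞 F, x ∈ v.asIdeal ^ n → v.valuation F (x : F) < v.valuation F (4 * (β v : F)) := by
    intro v
    by_cases h2 : (2 : 𝓞 F) ∈ v.asIdeal
    · obtain ⟨n, hn⟩ := val_pow_lt (v := v) (c := 4 * (β v : F)) (mul_ne_zero (by norm_num)
        (RingOfIntegers.coe_ne_zero_iff.2 (hβ v h2).1))
      exact ⟨n, fun _ => hn⟩
    · exact ⟨0, fun h => absurd h h2⟩
  choose n hn using hn
  have hfin2 : {v : HeightOneSpectrum (𝓞 F) | (2 : 𝓞 F) ∈ v.asIdeal}.Finite :=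
    Pool.Agent.N644.PQ.HunC.finite_over 2 two_ne_zero
  obtain ⟨m, hm⟩ : ∃ m : ℕ, ∀ v : HeightOneSpectrum (𝓞 F), (2 : 𝓞 F) ∈ v.asIdeal → n v ≤ m := by
    refine ⟨hfin2.toFinset.sup n, fun v hv => ?_⟩
    exact Finset.le_sup (f := n) (hfin2.mem_toFinset.2 hv)
  obtain ⟨W, hW⟩ : ∃ W : ℕ, W = 2 ^ (m + 1) * (3 * k * primorial M₀) := ⟨_, rfl⟩
  have hW0 : 0 < W := by
    rw [hW]
    exact Nat.mul_pos (by positivity) (Nat.mul_pos (Nat.mul_pos (by norm_num) hk)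
      (primorial_pos _))
  have h2W : 2 ∣ W := by
    rw [hW, pow_succ']
    exact Dvd.dvd.mul_right (dvd_mul_right _ _) _
  have hkW : k ∣ W := by
    rw [hW]
    exact Dvd.dvd.mul_left (Dvd.dvd.mul_right (dvd_mul_left _ _) _) _
  have h3W : 3 ∣ W := by
    rw [hW]
    exact Dvd.dvd.mul_left (Dvd.dvd.mul_right (dvd_mul_right _ _) _) _
  have hpW : ∀ p : ℕ, p.Prime → p ≤ M₀ → p ∣ W := by
    intro p hp hpM
    rw [hW]
    exact Dvd.dvd.mul_left (Dvd.dvd.mul_left ((hp.dvd_primorial_iff).2 hpM) _) _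
  choose A B hA hB using exists_loc (F := F)
  have hWne : Ideal.span {(W : 𝓞 F)} ≠ 0 := by
    rw [Ne, Ideal.zero_eq_bot, Ideal.span_singleton_eq_bot]
    exact_mod_cast hW0.ne'
  have hfinS := Ideal.finite_factors hWne
  obtain ⟨T, hT⟩ : ∃ T, T = hfinS.toFinset := ⟨_, rfl⟩
  have hmem : ∀ v : HeightOneSpectrum (𝓞 F), (W : 𝓞 F) ∈ v.asIdeal → v ∈ T := by
    intro v hv
    rw [hT, Set.Finite.mem_toFinset, Set.mem_setOf_eq, Ideal.dvd_span_singleton]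
    exact hv
  obtain ⟨a, ha⟩ := IsDedekindDomain.exists_forall_sub_mem_ideal (s := T)
      (fun v => v.asIdeal) (fun v => n v + 1) (fun v _ => v.prime)
      (fun v _ w _ hvw h => hvw (HeightOneSpectrum.ext h))
      (fun v => if (2 : 𝓞 F) ∈ (v : HeightOneSpectrum (𝓞 F)).asIdeal then -27 else A v)
  obtain ⟨b, hb⟩ := IsDedekindDomain.exists_forall_sub_mem_ideal (s := T)
      (fun v => v.asIdeal) (fun v => n v + 1) (fun v _ => v.prime)
      (fun v _ w _ hvw h => hvw (HeightOneSpectrum.ext h))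
      (fun v => if (2 : 𝓞 F) ∈ (v : HeightOneSpectrum (𝓞 F)).asIdeal then 54 + β v else B v)
  have hirr : ∀ v : HeightOneSpectrum (𝓞 F), (W : 𝓞 F) ∈ v.asIdeal → (2 : 𝓞 F) ∉ v.asIdeal →
      Irreducible (rd v.asIdeal (pol a b)) := by
    intro v hv h2
    have h1 := Ideal.pow_le_self (Nat.succ_ne_zero _) (ha v (hmem v hv))
    have h3 := Ideal.pow_le_self (Nat.succ_ne_zero _) (hb v (hmem v hv))
    rw [if_neg h2] at h1 h3
    have e : rd v.asIdeal (pol a b) = rd v.asIdeal (pol (A v) (B v)) := by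
      rw [rd_pol, rd_pol, Ideal.Quotient.eq.2 h1, Ideal.Quotient.eq.2 h3]
    rw [e]
    exact hA v
  refine ⟨W, pol a b, ⟨pol_monic a b, pol_natDegree a b, pol_coeff2 a b, hW0, h2W, ?_⟩, hkW, h3W,
    hpW, hirr, ?_⟩
  · intro v hv h2
    have h1 := hirr v hv h2
    haveI : Finite (𝓞 F ⧸ v.asIdeal) := Ideal.finiteQuotientOfFreeOfNeBot v.asIdeal v.ne_bot
    haveI : IsDomain (𝓞 F ⧸ v.asIdeal) := Ideal.Quotient.isDomain v.asIdeal
    exact Pool.Agent.N951.PF.sep_of_irr h1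
  · intro f hf v h2
    obtain ⟨b1, b2, b3⟩ := hβ v h2
    have hWv : (W : 𝓞 F) ∈ v.asIdeal ^ (n v) := by
      have h3 : (2 : 𝓞 F) ^ (n v) ∈ v.asIdeal ^ (n v) := Ideal.pow_mem_pow h2 _
      obtain ⟨d, hd⟩ := Nat.exists_eq_add_of_le (hm v h2)
      rw [hW, hd]
      push_cast
      have e : (2 : 𝓞 F) ^ (n v + d + 1) * (3 * (k : 𝓞 F) * ((primorial M₀ : ℕ) : 𝓞 F)) =
          2 ^ (n v) * (2 ^ (d + 1) * (3 * (k : 𝓞 F) * ((primorial M₀ : ℕ) : 𝓞 F))) := by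
        ring
      rw [e]
      exact Ideal.mul_mem_right _ _ h3
    have hWv1 : (W : 𝓞 F) ∈ v.asIdeal := by
      obtain ⟨d, hd⟩ := h2W
      rw [hd, Nat.cast_mul]
      exact Ideal.mul_mem_right _ _ (by exact_mod_cast h2)
    have hsp : ∀ x : 𝓞 F, x ∈ sp F W → x ∈ v.asIdeal ^ (n v) := fun x hx =>
      (Ideal.span_singleton_le_iff_mem _).2 hWv hx
    have ha' := Ideal.pow_le_pow_right (Nat.le_succ _) (ha v (hmem v hWv1))
    have hb' := Ideal.pow_le_pow_right (Nat.le_succ _) (hb v (hmem v hWv1))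
    rw [if_pos h2] at ha' hb'
    have c1 := hsp _ (hf 1)
    have c0 := hsp _ (hf 0)
    rw [pol_coeff1] at c1
    rw [pol_coeff0] at c0
    obtain ⟨P, hP⟩ : ∃ P, P = f.coeff 1 := ⟨_, rfl⟩
    obtain ⟨Q, hQ⟩ : ∃ Q, Q = f.coeff 0 := ⟨_, rfl⟩
    rw [← hP] at c1 ⊢
    rw [← hQ] at c0 ⊢
    have d1 : P + 27 ∈ v.asIdeal ^ (n v) := by
      have e : P + 27 = (P - a) + (a - -27) := by ring
      rw [e]
      exact Ideal.add_mem _ c1 ha'
    have d0 : 27 + 3 * P + Q - β v ∈ v.asIdeal ^ (n v) := by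
      have e : 27 + 3 * P + Q - β v = (Q - b) + (b - (54 + β v)) + 3 * (P + 27) := by ring
      rw [e]
      exact Ideal.add_mem _ (Ideal.add_mem _ c0 hb') (Ideal.mul_mem_left _ _ d1)
    have e1 := hn v h2 _ d1
    have e0 := hn v h2 _ d0
    have q1 : ((P + 27 : 𝓞 F) : F) = (P : F) + 27 := by
      show algebraMap (𝓞 F) F (P + 27) = _
      rw [map_add, map_ofNat]
    have q0 : ((27 + 3 * P + Q - β v : 𝓞 F) : F) = 27 + 3 * (P : F) + (Q : F) - (β v : F) := by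
      show algebraMap (𝓞 F) F (27 + 3 * P + Q - β v) = _
      simp only [map_add, map_sub, map_mul, map_ofNat]
    rw [q1] at e1
    rw [q0] at e0
    obtain ⟨N, hN⟩ : ∃ N, N = 27 + 3 * (P : F) + (Q : F) := ⟨_, rfl⟩
    rw [← hN] at e0 ⊢
    have hβ0 : (β v : F) ≠ 0 := RingOfIntegers.coe_ne_zero_iff.2 b1
    have h41 : v.valuation F 4 ≤ 1 := by exact_mod_cast v_nat_le (v.valuation F) 4
    have hle : v.valuation F (4 * (β v : F)) ≤ v.valuation F (β v : F) := by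
      rw [map_mul]
      exact mul_le_of_le_one_left' h41
    have hNv : v.valuation F N = v.valuation F (β v : F) := by
      have e : N = (β v : F) + (N - (β v : F)) := by ring
      rw [e, Valuation.map_add_eq_of_lt_left]
      exact e0.trans_le hle
    refine ⟨⟨h2, ?_, ?_, ?_⟩, fun i => (b3 i).near hβ0 e0⟩
    · rw [← hN]
      intro h0
      rw [h0, map_zero] at hNv
      exact hβ0 ((Valuation.zero_iff _).1 hNv.symm)
    · rw [← hN, hNv]
      exact b2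
    · rw [← hN, hNv]
      exact e1.le.trans hle

end Pool.Agent.H459.TWR
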