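import Pool.Agent.H459.UT.Fw

/-!
# The local condition over two for a chain of extensions (helper459)
-/

set_option autoImplicit false
set_option linter.all false

open Polynomial IsDedekindDomain NumberField WithZero MulAction
open scoped Classical Pointwise

namespace Pool.Agent.H459.TWR

open Pool.Agent.H459.UT
open Pool.Agent.H459.UF (below mem_below val_pow le_one_of_lt exists_loc rd_pol exists_above
  below_below lies_below')

section up

variable {F M M' : Type} [Field F] [NumberField F] [Field M] [NumberField M] [Algebra F M]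
  [Field M'] [NumberField M'] [Algebra F M']

/-- Squares in a completion of `M` are squares in the completions of the Galois extension `M'`. -/
theorem sq_up (φ : M →ₐ[F] M') [IsGalois F M'] {w : HeightOneSpectrum (𝓞 M)}
    {w' : HeightOneSpectrum (𝓞 M')} (h : below F w' = below F w) {δ : F}
    (hδ : IsSquare (algebraMap M (w.adicCompletion M) (algebraMap F M δ))) :
    IsSquare (algebraMap M' (w'.adicCompletion M') (algebraMap F M' δ)) := by
  letI : Algebra M M' := φ.toRingHom.toAlgebra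
  haveI : IsScalarTower F M M' := IsScalarTower.of_algebraMap_eq fun x => (φ.commutes x).symm
  obtain ⟨w'', hw''⟩ := exists_above (K := M) M' w
  obtain ⟨ι, h1, -, -⟩ := Pool.Agent.N814.JM.cpl M M' (𝓞 M) (𝓞 M') (below M w'') w''
    (lies_below' w'')
  subst hw''
  have h2 := hδ.map ι
  rw [h1, ← IsScalarTower.algebraMap_apply F M M'] at h2
  refine sq_conj (w := w') (w' := w'') ?_ h2
  rw [h, below_below]

end up

section beta

variable {F : Type} [Field F] [NumberField F]

/-- **The element `β`** for a set of elements whose classes lie in one quadratic extension. -/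
theorem exists_beta {v : HeightOneSpectrum (𝓞 F)} (h2 : (2 : 𝓞 F) ∈ v.asIdeal) (P : F → Prop)
    (hP : ∀ δ δ' : F, P δ → P δ' → IsSquare (algebraMap F (v.adicCompletion F) δ) ∨
      IsSquare (algebraMap F (v.adicCompletion F) δ') ∨
      IsSquare (algebraMap F (v.adicCompletion F) (δ * δ'))) :
    ∃ β : 𝓞 F, β ≠ 0 ∧ v.valuation F (β : F) < v.valuation F 64 ∧
      ∀ δ : F, P δ → ¬ IsSquare (algebraMap F (v.adicCompletion F) δ) →
      ¬ ∃ x y : v.adicCompletion F, x ^ 2 - algebraMap F (v.adicCompletion F) δ * y ^ 2 =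
        -algebraMap F (v.adicCompletion F) (β : F) := by
  haveI := charzero_cpt v
  have h2v := two_lt h2
  have h2p : 0 < v.valuation F 2 := zero_lt_iff.2 ((Valuation.ne_zero_iff _).2 two_ne_zero)
  have h64 : v.valuation F 64 = v.valuation F 2 ^ 6 := by
    rw [← map_pow]
    norm_num
  have h8 : v.valuation F 2 ^ 8 < v.valuation F 64 := by
    rw [h64]
    exact pow_lt_pow_right_of_lt_one₀ h2p h2v (by norm_num)
  by_cases hex : ∃ (δ : F), P δ ∧ ¬ IsSquare (algebraMap F (v.adicCompletion F) δ)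
  · obtain ⟨δ₀, hs₀, hn₀⟩ := hex
    obtain ⟨i, hi⟩ : ∃ i : F →+* v.adicCompletion F, i = algebraMap F _ := ⟨_, rfl⟩
    rw [← hi] at hn₀
    obtain ⟨π, ρ₀, hdy⟩ := dy_cpt h2
    obtain ⟨a, ha0, ha⟩ := hdy.ex hn₀
    have h4a : Valued.v (Γ₀ := WithZero (Multiplicative ℤ)) (4 * a : v.adicCompletion F) ≠ 0 :=
      (Valuation.ne_zero_iff _).2 (mul_ne_zero (by norm_num) ha0)
    obtain ⟨a', ha'⟩ := Pool.Agent.N704.PP.near v a h4a
    rw [← hi] at ha'
    have hav : 0 < Valued.v (Γ₀ := WithZero (Multiplicative ℤ)) a :=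
      zero_lt_iff.2 ((Valuation.ne_zero_iff _).2 ha0)
    have hε : Valued.v (Γ₀ := WithZero (Multiplicative ℤ)) ((i a' - a) / a) <
        Valued.v (Γ₀ := WithZero (Multiplicative ℤ)) (4 : v.adicCompletion F) := by
      rw [map_div₀, div_lt_iff₀ hav, ← map_mul, Valuation.map_sub_swap]
      exact ha'
    obtain ⟨s, hs⟩ := sq4 v _ hε
    have h41 : Valued.v (Γ₀ := WithZero (Multiplicative ℤ)) (4 : v.adicCompletion F) ≤ 1 := by
      exact_mod_cast v_nat_le _ 4
    have hs0 : s ≠ 0 := by
      rintro rfl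
      have h5 : Valued.v (Γ₀ := WithZero (Multiplicative ℤ)) (1 + (i a' - a) / a) = 1 :=
        v_one_add (hε.trans_le h41)
      rw [mul_zero] at hs
      rw [hs, map_zero] at h5
      exact zero_ne_one h5
    have haa : i a' = a * (s * s) := by
      rw [← hs]
      field_simp
      ring
    have ha'0 : a' ≠ 0 := by
      rintro rfl
      rw [map_zero] at haa
      exact mul_ne_zero ha0 (mul_ne_zero hs0 hs0) haa.symm
    obtain ⟨x, y, hy, hxy⟩ := IsFractionRing.div_surjective (A := 𝓞 F) a'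
    have hy0 : (y : 𝓞 F) ≠ 0 := nonZeroDivisors.ne_zero hy
    have hyF : (algebraMap (𝓞 F) F y) ≠ 0 := by
      rwa [Ne, FaithfulSMul.algebraMap_eq_zero_iff]
    have hx0 : x ≠ 0 := by
      rintro rfl
      rw [map_zero, zero_div] at hxy
      exact ha'0 hxy.symm
    refine ⟨-(x * y * 2 ^ 8), neg_ne_zero.2 (mul_ne_zero (mul_ne_zero hx0 hy0)
      (pow_ne_zero _ two_ne_zero)), ?_, ?_⟩
    · have e : ((-(x * y * 2 ^ 8) : 𝓞 F) : F) = -(algebraMap (𝓞 F) F (x * y) * 2 ^ 8) := by
        show algebraMap (𝓞 F) F (-(x * y * 2 ^ 8)) = _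
        rw [map_neg, map_mul, map_pow, map_ofNat]
      rw [e, Valuation.map_neg, map_mul, map_pow]
      refine (mul_le_of_le_one_left' ?_).trans_lt h8
      exact HeightOneSpectrum.valuation_le_one (K := F) v _
    · intro δ h3 h4 ⟨X, Y, hXY⟩
      rw [← hi] at h4 hXY
      have h6 := hP δ₀ δ hs₀ h3
      rw [← hi] at h6
      rcases h6 with h6 | h6 | ⟨t, ht⟩
      · exact hn₀ h6
      · exact h4 h6
      · rw [map_mul] at ht
        have hδ0 : i δ₀ ≠ 0 := by
          intro h0
          apply hn₀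
          rw [h0]
          exact ⟨0, by ring⟩
        apply ha
        refine ⟨X / (16 * i (algebraMap (𝓞 F) F y) * s),
          (t / i δ₀) * Y / (16 * i (algebraMap (𝓞 F) F y) * s), ?_⟩
        have hiy : i (algebraMap (𝓞 F) F y) ≠ 0 := (_root_.map_ne_zero i).2 hyF
        have e2 : i (((-(x * y * 2 ^ 8) : 𝓞 F) : F)) =
            -(a * (s * s) * (16 * i (algebraMap (𝓞 F) F y)) ^ 2) := by
          rw [← haa, ← hxy]
          have e3 : ((-(x * y * 2 ^ 8) : 𝓞 F) : F) =
              -(algebraMap (𝓞 F) F x / algebraMap (𝓞 F) F y * (16 * algebraMap (𝓞 F) F y) ^ 2) := by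
            show algebraMap (𝓞 F) F (-(x * y * 2 ^ 8)) = _
            rw [map_neg, map_mul, map_mul, map_pow, map_ofNat]
            field_simp
            ring
          rw [e3]
          simp only [map_neg, map_mul, map_pow, map_ofNat]
        rw [e2] at hXY
        field_simp
        have e4 : i δ * (i δ₀) = t * t := by rw [← ht]; ring
        linear_combination (i δ₀) * hXY + (Y ^ 2) * e4
  · refine ⟨2 ^ 8, pow_ne_zero _ two_ne_zero, ?_, ?_⟩
    · push_cast
      have : ((2 : 𝓞 F) : F) = 2 := map_ofNat (algebraMap (𝓞 F) F) 2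
      rw [map_pow]
      exact h8
    · intro δ h3 h4
      exact absurd ⟨δ, h3, h4⟩ hex

/-- The elements which become squares in the completions of one of the fields of a directed family of
extensions with cyclic decomposition groups over two. -/
theorem dir_beta {ι : Type} (M : ι → Type) [∀ i, Field (M i)] [∀ i, NumberField (M i)]
    [∀ i, Algebra F (M i)] [∀ i, IsGalois F (M i)]
    (hdir : ∀ i j, ∃ k, Nonempty (M i →ₐ[F] M k) ∧ Nonempty (M j →ₐ[F] M k))
    (hcyc : ∀ i, ∀ w : HeightOneSpectrum (𝓞 (M i)), (2 : 𝓞 (M i)) ∈ w.asIdeal →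
      IsCyclic (stabilizer (M i ≃ₐ[F] M i) w.asIdeal))
    {v : HeightOneSpectrum (𝓞 F)} (h2 : (2 : 𝓞 F) ∈ v.asIdeal) :
    ∃ β : 𝓞 F, β ≠ 0 ∧ v.valuation F (β : F) < v.valuation F 64 ∧ ∀ i, NN (M i) v (β : F) := by
  obtain ⟨β, h1, h3, h4⟩ := exists_beta h2 (fun δ : F => ∃ (i : ι)
    (w : HeightOneSpectrum (𝓞 (M i))), below F w = v ∧
    IsSquare (algebraMap (M i) (w.adicCompletion (M i)) (algebraMap F (M i) δ))) (by
      rintro δ δ' ⟨i, w, hw, hs⟩ ⟨j, w', hw', hs'⟩
      obtain ⟨k, ⟨φ⟩, ⟨ψ⟩⟩ := hdir i j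
      obtain ⟨u, hu⟩ := exists_above (K := F) (M k) v
      have h2u : (2 : 𝓞 (M k)) ∈ u.asIdeal := by
        rw [← hu, mem_below, map_ofNat] at h2
        exact h2
      have h5 := sq_up φ (w := w) (w' := u) (by rw [hw, hu]) hs
      have h6 := sq_up ψ (w := w') (w' := u) (by rw [hw', hu]) hs'
      have h7 := uniq2 h2u (hcyc k u h2u) h5 h6
      rwa [hu] at h7)
  exact ⟨β, h1, h3, fun i w hw δ hs hn => h4 δ ⟨i, w, hw, hs⟩ hn⟩

end beta

end Pool.Agent.H459.TWR
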