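import Mathlib

/-!
# Residue degrees in extensions of dihedral type (helper459)
-/

set_option autoImplicit false
set_option linter.all false

open NumberField IsDedekindDomain
open scoped Pointwise

namespace Pool.Agent.H459.TWR

theorem under_eq {M : Type} [Field M] [NumberField M] (q : ℕ) (hq : q.Prime)
    (P : Ideal (𝓞 M)) (hP : P.IsPrime) (hqP : (q : 𝓞 M) ∈ P) :
    P.under ℤ = Ideal.span {(q : ℤ)} := by
  have h1 : (Ideal.span {(q : ℤ)}).IsMaximal := by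
    have : Fact q.Prime := ⟨hq⟩
    exact Int.ideal_span_isMaximal_of_prime q
  refine (h1.eq_of_le ?_ ?_).symm
  · exact (Ideal.IsPrime.under ℤ P).ne_top
  · rw [Ideal.span_singleton_le_iff_mem]
    show algebraMap ℤ (𝓞 M) (q : ℤ) ∈ P
    rw [map_natCast]
    exact hqP

theorem exists_frob {M : Type} [Field M] [NumberField M] [IsGalois ℚ M] (q : ℕ) (hq : q.Prime)
    (P : HeightOneSpectrum (𝓞 M)) (hqP : (q : 𝓞 M) ∈ P.asIdeal) :
    ∃ φ : M ≃ₐ[ℚ] M, ∀ x : 𝓞 M, φ • x - x ^ q ∈ P.asIdeal := by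
  haveI : Finite (𝓞 M ⧸ P.asIdeal) := Ideal.finiteQuotientOfFreeOfNeBot P.asIdeal P.ne_bot
  haveI := P.isPrime
  obtain ⟨φ, hφ⟩ := IsArithFrobAt.exists_of_isInvariant ℤ (M ≃ₐ[ℚ] M) P.asIdeal
  refine ⟨φ, fun x => ?_⟩
  have h1 := hφ x
  rw [under_eq q hq P.asIdeal P.isPrime hqP] at h1
  have h2 : Nat.card (ℤ ⧸ Ideal.span {(q : ℤ)}) = q := by
    rw [Nat.card_congr (Int.quotientSpanNatEquivZMod q).toEquiv, Nat.card_zmod]
  rw [h2] at h1
  exact h1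

theorem deg (K M : Type) [Field K] [NumberField K] [Field M] [NumberField M] [Algebra K M]
    [IsGalois ℚ M] (d : ℤ) (y : 𝓞 K) (hy : y ^ 2 = (d : 𝓞 K))
    (hdi : ∀ σ : M ≃ₐ[ℚ] M, σ (algebraMap K M (y : K)) ≠ algebraMap K M (y : K) →
      ∀ x, σ (σ x) = x)
    (q : ℕ) (hq : q.Prime) (hq2 : q % 2 = 1) (hqd : (q : ℤ) ∣ d ^ ((q - 1) / 2) + 1)
    (P : HeightOneSpectrum (𝓞 M)) (hqP : (q : 𝓞 M) ∈ P.asIdeal) (x : 𝓞 M) :
    ∃ z : 𝓞 K, x - algebraMap (𝓞 K) (𝓞 M) z ∈ P.asIdeal := by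
  haveI hfin : Finite (𝓞 M ⧸ P.asIdeal) := Ideal.finiteQuotientOfFreeOfNeBot P.asIdeal P.ne_bot
  haveI := P.isMaximal
  letI : Field (𝓞 M ⧸ P.asIdeal) := Ideal.Quotient.field P.asIdeal
  haveI : Fact q.Prime := ⟨hq⟩
  obtain ⟨φ, hφ⟩ := exists_frob q hq P hqP
  obtain ⟨k, hk⟩ : ∃ k : Type, k = (𝓞 M ⧸ P.asIdeal) := ⟨_, rfl⟩
  obtain ⟨π, hπ⟩ : ∃ π : 𝓞 M →+* (𝓞 M ⧸ P.asIdeal), π = Ideal.Quotient.mk P.asIdeal := ⟨_, rfl⟩
  have hq0 : (q : 𝓞 M ⧸ P.asIdeal) = 0 := by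
    have := Ideal.Quotient.eq_zero_iff_mem.2 hqP
    rwa [map_natCast] at this
  haveI : CharP (𝓞 M ⧸ P.asIdeal) q := by
    rcases CharP.exists (𝓞 M ⧸ P.asIdeal) with ⟨p, hp⟩
    have h1 : p ∣ q := (CharP.cast_eq_zero_iff _ p q).1 hq0
    rcases (Nat.dvd_prime hq).1 h1 with h2 | h2
    · exfalso
      rw [h2] at hp
      have h3 := CharP.cast_eq_zero (𝓞 M ⧸ P.asIdeal) 1
      rw [Nat.cast_one] at h3
      exact one_ne_zero h3
    · rwa [h2] at hp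
  have hfr : ∀ z : 𝓞 M, π (φ • z) = π z ^ q := by
    intro z
    rw [hπ, ← map_pow]
    exact Ideal.Quotient.eq.2 (hφ z)
  obtain ⟨t, ht⟩ : ∃ t, t = π (algebraMap (𝓞 K) (𝓞 M) y) := ⟨_, rfl⟩
  have ht2 : t ^ 2 = (d : 𝓞 M ⧸ P.asIdeal) := by
    rw [ht, ← map_pow, ← map_pow, hy, map_intCast, map_intCast]
  have hdq : (d : 𝓞 M ⧸ P.asIdeal) ^ ((q - 1) / 2) = -1 := by
    have h1 : (((d ^ ((q - 1) / 2) + 1 : ℤ)) : 𝓞 M ⧸ P.asIdeal) = 0 :=
      (CharP.intCast_eq_zero_iff _ q _).2 hqd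
    push_cast at h1
    exact eq_neg_of_add_eq_zero_left h1
  have htq : t ^ q = -t := by
    have e : q = 2 * ((q - 1) / 2) + 1 := by omega
    have e2 : t ^ (2 * ((q - 1) / 2) + 1) = -t := by
      rw [pow_succ, pow_mul, ht2, hdq]
      ring
    rw [← e] at e2
    exact e2
  have h20 : (2 : 𝓞 M ⧸ P.asIdeal) ≠ 0 := by
    intro h
    have h1 : ((2 : ℕ) : 𝓞 M ⧸ P.asIdeal) = 0 := by exact_mod_cast h
    rw [CharP.cast_eq_zero_iff _ q] at h1
    have := Nat.le_of_dvd (by norm_num) h1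
    have := hq.two_le
    omega
  have hq3 : 3 ≤ q := by
    have := hq.two_le
    omega
  have ht0 : t ≠ 0 := by
    intro h0
    rw [h0] at ht2
    have h1 : (d : 𝓞 M ⧸ P.asIdeal) = 0 := by rw [← ht2]; ring
    rw [h1, zero_pow (by omega)] at hdq
    have h2 : (1 : 𝓞 M ⧸ P.asIdeal) = 0 := by
      rw [← neg_eq_zero, ← hdq]
    exact one_ne_zero h2
  have htne : -t ≠ t := by
    intro h
    have h1 : 2 * t = 0 := by linear_combination (-1 : 𝓞 M ⧸ P.asIdeal) * h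
    exact (mul_ne_zero h20 ht0) h1
  have hne : φ (algebraMap K M (y : K)) ≠ algebraMap K M (y : K) := by
    intro h
    have h1 : φ • (algebraMap (𝓞 K) (𝓞 M) y) = algebraMap (𝓞 K) (𝓞 M) y :=
      RingOfIntegers.ext h
    have h2 := hfr (algebraMap (𝓞 K) (𝓞 M) y)
    rw [h1, ← ht, htq] at h2
    exact htne h2.symm
  have hinv := hdi φ hne
  have hsq : ∀ a : 𝓞 M ⧸ P.asIdeal, a ^ (q ^ 2) = a := by
    intro a
    obtain ⟨z, rfl⟩ := Ideal.Quotient.mk_surjective a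
    rw [← hπ]
    have h1 : φ • (φ • z) = z := RingOfIntegers.ext (hinv (z : M))
    have h2 := hfr (φ • z)
    rw [h1, hfr z] at h2
    rw [pow_two q, pow_mul]
    exact h2.symm
  -- at most `q ^ 2` elements
  classical
  haveI : Fintype (𝓞 M ⧸ P.asIdeal) := Fintype.ofFinite _
  have hcard : Fintype.card (𝓞 M ⧸ P.asIdeal) ≤ q ^ 2 := by
    have h1 : (Finset.univ : Finset (𝓞 M ⧸ P.asIdeal)) ⊆
        (Polynomial.X ^ (q ^ 2) - Polynomial.X : Polynomial (𝓞 M ⧸ P.asIdeal)).roots.toFinset := by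
      intro a _
      have h2 : 1 < q ^ 2 := Nat.one_lt_pow two_ne_zero hq.one_lt
      rw [Multiset.mem_toFinset, Polynomial.mem_roots (FiniteField.X_pow_card_sub_X_ne_zero _ h2)]
      simp [hsq a]
    have h2 := Finset.card_le_card h1
    rw [Finset.card_univ] at h2
    refine h2.trans ((Multiset.toFinset_card_le _).trans ((Polynomial.card_roots' _).trans ?_))
    rw [FiniteField.X_pow_card_sub_X_natDegree_eq _ (Nat.one_lt_pow two_ne_zero hq.one_lt)]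
  -- the elements `a + b t`
  have hfix : ∀ a : ZMod q, (ZMod.castHom (dvd_refl q) (𝓞 M ⧸ P.asIdeal) a) ^ q =
      ZMod.castHom (dvd_refl q) (𝓞 M ⧸ P.asIdeal) a := by
    intro a
    rw [← map_pow, ZMod.pow_card]
  have hinj : Function.Injective fun ab : ZMod q × ZMod q =>
      ZMod.castHom (dvd_refl q) (𝓞 M ⧸ P.asIdeal) ab.1 +
        ZMod.castHom (dvd_refl q) (𝓞 M ⧸ P.asIdeal) ab.2 * t := by
    rintro ⟨a, b⟩ ⟨a', b'⟩ h
    have h : ZMod.castHom (dvd_refl q) (𝓞 M ⧸ P.asIdeal) a +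
        ZMod.castHom (dvd_refl q) (𝓞 M ⧸ P.asIdeal) b * t =
        ZMod.castHom (dvd_refl q) (𝓞 M ⧸ P.asIdeal) a' +
        ZMod.castHom (dvd_refl q) (𝓞 M ⧸ P.asIdeal) b' * t := h
    have hi : Function.Injective (ZMod.castHom (dvd_refl q) (𝓞 M ⧸ P.asIdeal)) :=
      RingHom.injective _
    have hb : b = b' := by
      by_contra hb
      apply htne
      have hb0 : ZMod.castHom (dvd_refl q) (𝓞 M ⧸ P.asIdeal) (b - b') ≠ 0 := by
        rw [Ne, map_eq_zero_iff _ hi]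
        exact sub_ne_zero.2 hb
      have h1 : t = ZMod.castHom (dvd_refl q) (𝓞 M ⧸ P.asIdeal) ((a' - a) / (b - b')) := by
        rw [map_div₀, eq_div_iff hb0, map_sub, map_sub]
        linear_combination h
      rw [← htq]
      rw [h1]
      exact hfix _
    subst hb
    have ha : a = a' := hi (by linear_combination h)
    rw [ha]
  have hsurj : Function.Surjective fun ab : ZMod q × ZMod q =>
      ZMod.castHom (dvd_refl q) (𝓞 M ⧸ P.asIdeal) ab.1 +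
        ZMod.castHom (dvd_refl q) (𝓞 M ⧸ P.asIdeal) ab.2 * t := by
    refine ((Fintype.bijective_iff_injective_and_card _).2 ⟨hinj, ?_⟩).2
    refine le_antisymm (Fintype.card_le_of_injective _ hinj) ?_
    refine hcard.trans ?_
    rw [Fintype.card_prod, ZMod.card, pow_two]
  obtain ⟨⟨a, b⟩, hab⟩ := hsurj (π x)
  refine ⟨(a.val : 𝓞 K) + (b.val : 𝓞 K) * y, ?_⟩
  rw [← Ideal.Quotient.eq, ← hπ, map_add, map_mul, map_natCast, map_natCast, map_add, map_mul,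
    map_natCast, map_natCast, ← ht]
  have ea : ((a.val : ℕ) : 𝓞 M ⧸ P.asIdeal) = ZMod.castHom (dvd_refl q) (𝓞 M ⧸ P.asIdeal) a := by
    rw [← map_natCast (ZMod.castHom (dvd_refl q) (𝓞 M ⧸ P.asIdeal)), ZMod.natCast_zmod_val]
  have eb : ((b.val : ℕ) : 𝓞 M ⧸ P.asIdeal) = ZMod.castHom (dvd_refl q) (𝓞 M ⧸ P.asIdeal) b := by
    rw [← map_natCast (ZMod.castHom (dvd_refl q) (𝓞 M ⧸ P.asIdeal)), ZMod.natCast_zmod_val]
  rw [ea, eb]
  exact hab.symm

end Pool.Agent.H459.TWR
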