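import Pool.Agent.H459.UT.TwT

/-!
# A twist whose 2-Selmer groups over all members of a family of extensions are zero (helper459)

After `UT/TwT.lean`: the twist does not depend on the extension.
-/

set_option autoImplicit false
set_option linter.all false

open Polynomial IsDedekindDomain NumberField WithZero MulAction
open scoped Classical IntermediateField Pointwise

namespace Pool.Agent.H459.UT

open Pool.Agent.H459.UF (below mem_below below_below exists_above Dns DQ Unr Deg1 Cub fo fb fb_eq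
  fb_self below_self fo_self dns_of_deg1 Sg One irr_of_no_root eval_scale exists_ez fo_scale
  cu cu_monic cu_deg)
open Pool.Agent.N874.JM (LocF)
open Pool.Agent.N783.PQ (LocIm)
open Pool.Agent.N783.PF
open Pool.Agent.N61.PF (pol pol_monic pol_natDegree pol_coeff0 pol_coeff1 pol_coeff2 eq_pol fF_eq)
open Pool.Agent.N547.PF (map_eq_X_pow)

/-- From the absence of bad elements to a twist with zero 2-Selmer group over all `M i`. -/
theorem twI (F : Type) [Field F] [NumberField F] : ∃ κ : ℕ,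
    ∀ (ι : Type) (M : ι → Type) [∀ i, Field (M i)] [∀ i, NumberField (M i)]
    [∀ i, Algebra F (M i)] [∀ i, IsGalois F (M i)],
    (∀ i, ∃ n : ℕ, Module.finrank F (M i) = 2 ^ n) → ∀ (B N W : ℕ) (f₁ : (𝓞 F)[X]) (S : Finset ℕ)
    (𝔮 : ℕ → Ideal (𝓞 F)) (r P : ℕ → (𝓞 F)[X]) (f : (𝓞 F)[X]), κ ≤ W →
    GoodT 1 W (fun v => (2 : 𝓞 F) ∈ v.asIdeal) f₁ → GoodS 1 W S 𝔮 r P →
    FamT 1 B W (fun v => (2 : 𝓞 F) ∈ v.asIdeal) f₁ S P f →
    2 ^ κ * B ≤ 4 ^ N → 1 ≤ B → ¬ LBad 1 N κ S 𝔮 P f → Irreducible (fF f) →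
    (∀ v : HeightOneSpectrum (𝓞 F), (2 : 𝓞 F) ∈ v.asIdeal →
        TF v (f.coeff 1 : F) (f.coeff 0 : F) ∧
        ∀ i, NN (M i) v (27 + 3 * (f.coeff 1 : F) + (f.coeff 0 : F))) →
    (∀ i, ∀ v : HeightOneSpectrum (𝓞 F), (2 : 𝓞 F) ∉ v.asIdeal →
      Unr F (M i) v ∨ Irreducible (rd v.asIdeal f)) →
    (∀ q ∈ S, ∀ i, ∀ v : HeightOneSpectrum (𝓞 F), (q : 𝓞 F) ∈ v.asIdeal →
      Unr F (M i) v ∧ Deg1 F (M i) v) →
    Sg f →
    ∃ J ⊆ S, Irreducible (fF (f.scaleRoots ((Dp J : ℕ) : 𝓞 F))) ∧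
      Min 1 (f.scaleRoots ((Dp J : ℕ) : 𝓞 F)) ∧
      ∀ i, SelZero (fo (M i) (f.scaleRoots ((Dp J : ℕ) : 𝓞 F))) := by
  obtain ⟨κ₁, hκ₁⟩ := core 1 F le_rfl
  obtain ⟨κ₂, hκ₂⟩ := sqf 1 F le_rfl
  refine ⟨max κ₁ κ₂, fun I MM _ _ _ _ hnn B N W f₁ S 𝔮 r P f hW hf₁ hS hF hBN hB hnb hirr hlocc
    hunrr hspll hSg => ?_⟩
  have hBN1 : 2 ^ κ₁ * B ≤ 4 ^ N :=
    (Nat.mul_le_mul_right _ (Nat.pow_le_pow_right (by norm_num) (le_max_left _ _))).trans hBN
  have hBN2 : 2 ^ κ₂ * B ≤ 4 ^ N :=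
    (Nat.mul_le_mul_right _ (Nat.pow_le_pow_right (by norm_num) (le_max_right _ _))).trans hBN
  have hnb1 : ¬ LBad 1 N κ₁ S 𝔮 P f := fun h =>
    hnb (Pool.Agent.N170.PF.LBad.mono (le_max_left _ _) h)
  have hnb2 : ¬ LBad 1 N κ₂ S 𝔮 P f := fun h =>
    hnb (Pool.Agent.N170.PF.LBad.mono (le_max_right _ _) h)
  have hm := hF.ht.mon
  have hd : f.natDegree = 3 := hF.ht.deg
  have hsq := hκ₂ B N W (fun v => (2 : 𝓞 F) ∈ v.asIdeal) f₁ S 𝔮 r P f ((le_max_right _ _).trans hW)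
    hS hF hirr hBN2 hnb2 (fun v hv => hv)
  obtain ⟨L, _, _, _, θ, hc⟩ := Pool.Agent.N667.PF.gen F 1 f hm hd hirr
  obtain ⟨A', hA'⟩ : ∃ A : F, A = (f.coeff 1 : F) := ⟨_, rfl⟩
  obtain ⟨B', hB'⟩ : ∃ B : F, B = (f.coeff 0 : F) := ⟨_, rfl⟩
  have hfcu : fF f = cu A' B' := by
    rw [fF_eq hF.ht, hA', hB']
  rw [← hA', ← hB'] at hlocc
  have hTF : ∀ v : HeightOneSpectrum (𝓞 F), (2 : 𝓞 F) ∈ v.asIdeal → TF v A' B' := fun v hv =>
    (hlocc v hv).1
  have hqp : ∀ q ∈ S, q.Prime := fun q hq => (hS q hq).1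
  have hq2 : ∀ q ∈ S, ∀ w : HeightOneSpectrum (𝓞 F), (2 : 𝓞 F) ∈ w.asIdeal →
      (q : 𝓞 F) ∉ w.asIdeal := by
    intro q hq w hw hqw
    obtain ⟨a1, a2, a3, a4, -⟩ := hS q hq
    have h9 : ((q : 𝓞 F)) - 2 * ((q / 2 : ℕ) : 𝓞 F) = 1 := by
      have h10 : q = 2 * (q / 2) + 1 := by omega
      have h11 : (q : 𝓞 F) = 2 * ((q / 2 : ℕ) : 𝓞 F) + 1 := by
        exact_mod_cast congrArg (Nat.cast (R := 𝓞 F)) h10
      rw [h11]
      ring
    apply w.isPrime.ne_top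
    rw [Ideal.eq_top_iff_one, ← h9]
    exact Ideal.sub_mem _ hqw (Ideal.mul_mem_right _ _ hw)
  obtain ⟨Q, hQ⟩ : ∃ Q : F[X] → Prop, Q = C2 F F f := ⟨_, rfl⟩
  have hTOF : TOK F F f (C2 F F f) := tok2 hfcu hTF
  have hQm : ∀ h h' : F[X], Q h → Q h' → Q (h * h') := by
    rw [hQ]
    exact hTOF.mul
  have hQ1 : Q 1 := by
    rw [hQ]
    have := hTOF.sq 1
    rwa [one_pow] at this
  have hLL : ∀ h : F[X], aeval θ h ≠ 0 → IsSquare (Algebra.norm F (aeval θ h)) → Q h →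
      ∀ w : HeightOneSpectrum (𝓞 F), (2 : 𝓞 F) ∈ w.asIdeal →
      ∃ (G : Pool.Agent.N352.PJ.Mt 1 (w.adicCompletion F))
        (lam lam₁ : L → Fin (2 * 1 + 1) → w.adicCompletion F),
        UG G ∧ LL hc w (aeval θ h) G lam ∧ LL hc w 1 G lam₁ := by
    intro h h0 hN hh w hw
    haveI := charzero_cpt w
    rw [hQ] at hh
    obtain ⟨s, s1, s2, s3⟩ := hh w hw
    have H := (hTF w hw).self
    have e1 : s ^ 3 + algebraMap F (w.adicCompletion F) A' * s +
        algebraMap F (w.adicCompletion F) B' = 0 := by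
      rw [fb_self, hfcu] at s1
      rw [← s1]
      unfold cu
      simp
    obtain ⟨lam, hlam⟩ := ll_tt hc w hfcu H e1 s2 h0 hN s3
    obtain ⟨lam₁, hlam₁⟩ := ll_tt hc w hfcu H e1 s2 (h := 1) (by
      rw [map_one]
      exact one_ne_zero) (by
      rw [map_one, map_one]
      exact IsSquare.one) (by
      rw [Polynomial.map_one, eval_one]
      exact IsSquare.one)
    rw [map_one] at hlam₁
    exact ⟨GT _, lam, lam₁, ug_gt w, hlam, hlam₁⟩
  obtain ⟨J, hJ, hcore⟩ := hκ₁ L f θ B N W S 𝔮 r P (fun v => (2 : 𝓞 F) ∈ v.asIdeal) Q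
    ((le_max_left _ _).trans hW) hc (Pool.Agent.N644.PQ.HunC.finite_over 2 two_ne_zero)
    (fun v hv => ⟨hv, hsq v hv⟩) hq2 hS hF.ht hF.con hBN1 hnb1 hQ1 hQm hLL
  have hcoef : ∀ v : HeightOneSpectrum (𝓞 F), (2 : 𝓞 F) ∈ v.asIdeal → f.coeff 1 ∉ v.asIdeal := by
    intro v hv hc1
    haveI := charzero_cpt v
    have h1 := (HeightOneSpectrum.valuation_lt_one_iff_mem (K := F) v _).2 hc1
    have h2 := (hTF v hv).self.vA
    rw [Pool.Agent.N704.PP.vx, hA'] at h2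
    exact absurd h1 (not_lt.2 h2.ge)
  refine ⟨J, hJ, ?_, minT hS hsq hcoef hm hd hF.con hJ, fun i => ?_⟩
  · have hD0 : Dp J ≠ 0 := by
      rw [Dp, Finset.prod_ne_zero_iff]
      exact fun q hq => (hS q (hJ hq)).1.ne_zero
    rw [Pool.Agent.N170.PF.fF_scale hm]
    exact Pool.Agent.N170.PF.irr_scale (Nat.cast_ne_zero.2 hD0) hirr
  obtain ⟨n, hn⟩ := hnn i
  have hcQ : ∀ q ∈ S, Cg (𝔮 q) f (X * r q) := by
    intro q hq j
    obtain ⟨-, -, -, -, -, -, a2, -, -, -, -, -, -, a3, -⟩ := hS q hq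
    have b1 := Pool.Agent.N78.PF.sp_le (F := F) a2 (hF.con q hq j)
    have b2 := a3 j
    have := Ideal.add_mem _ b1 b2
    simpa using this
  have hPK : PKT F F (MM i) (fun v => (2 : 𝓞 F) ∈ v.asIdeal) (C2 F (MM i) f) f J 𝔮 := by
    refine baseT (fun v hv => ⟨hv, hsq v hv⟩) le_rfl hm hd hS hF.con hJ hq2 (MM i) (C2 F (MM i) f) Q ?_ L θ hc
      hcore
    intro h h0 hN hT
    rw [hQ]
    intro v hv
    rw [fb_self]
    obtain ⟨w, rfl⟩ := exists_above (K := F) (MM i) v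
    have hw : (2 : 𝓞 (MM i)) ∈ w.asIdeal := by
      have := (mem_below w _).1 hv
      rwa [map_ofNat] at this
    exact desc2 hfcu (hTF _ hv) (fun δ h1 h2 => (hlocc _ hv).2 i w rfl δ h1 h2) h0 hN (hT w hw)
  have H : DatT f J 𝔮 := ⟨hm, 1, W, S, r, P, le_rfl, hd, hS, hcQ, hJ⟩
  obtain ⟨D, hD⟩ : ∃ D : ℕ, D = Dp J := ⟨_, rfl⟩
  have hDQ : DQ F (MM i) J 𝔮 := by
    intro q hq w hw
    obtain ⟨-, -, -, -, -, -, a7, -⟩ := hS q (hJ hq)
    obtain ⟨h1, h2⟩ := hspll q (hJ hq) i (below F w) (by rw [hw]; exact a7)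
    exact dns_of_deg1 h1 h2
  have hT : TCT F F (MM i) (fun v => (2 : 𝓞 F) ∈ v.asIdeal) f J 𝔮 := by
    refine ⟨?_, hDQ, ?_⟩
    · intro v hv
      rw [below_self] at hv
      rw [fo_self]
      exact hunrr i v hv
    · intro σ
      refine Or.inr ?_
      have hσ : σ.comp (algebraMap F F) = σ := by
        rw [Algebra.algebraMap_self, RingHom.comp_id]
      rw [hσ]
      have h5 : 0 < 4 * (σ (f.coeff 1 : F)) ^ 3 + 27 * (σ (f.coeff 0 : F)) ^ 2 := by
        have h := hSg σ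
        push_cast at h
        simp only [map_add, map_mul, map_pow, map_ofNat, map_natCast] at h
        exact h
      obtain ⟨e, z, hz, he, hze⟩ := exists_ez h5
      have hmapf : (fF f).map σ = X ^ 3 + C (σ (f.coeff 1 : F)) * X + C (σ (f.coeff 0 : F)) := by
        rw [fF_eq hF.ht]
        simp
      refine ⟨e, z, hz, ?_, ?_⟩
      · rw [hmapf]
        simpa using he
      · rw [hmapf]
        simpa using hze
  have hMK := towerT H (tok2 hfcu hTF) hd n F hn hT hPK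
  have hirrM : Irreducible (fb (MM i) f) :=
    Pool.Agent.N874.JM.irr_up hn hirr (hm.map _) (by
      rw [hm.natDegree_map, hd]
      decide)
  have hD8 : (Dp J) % 8 = 1 := by
    have : ∀ T : Finset ℕ, T ⊆ S → (∏ q ∈ T, q) % 8 = 1 := by
      intro T
      induction T using Finset.induction_on with
      | empty => intro _; rfl
      | insert a T ha ih =>
        intro hT
        rw [Finset.prod_insert ha, Nat.mul_mod, ih fun x hx => hT (Finset.mem_insert_of_mem hx),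
          (hS a (hT (Finset.mem_insert_self _ _))).2.2.2.1]
    exact this J hJ
  have h6 := selMT H hMK hDQ hirrM (fun v hv => hv) (by
    intro w hw
    have hw2 : (2 : 𝓞 (MM i)) ∈ w.asIdeal := by
      have := (mem_below w _).1 hw
      rwa [map_ofNat] at this
    haveI : Fact (Nat.Prime 2) := ⟨Nat.prime_two⟩
    obtain ⟨δ, hδ⟩ := Pool.Agent.N891.PQ.sq_two (Dp J) hD8
    obtain ⟨ι, hι, -, -⟩ := Pool.Agent.N498.PQ.cpl (MM i) 2 w (by
      change ((2 : ℕ) : 𝓞 (MM i)) ∈ w.asIdeal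
      exact_mod_cast hw2)
    exact ⟨ι δ, by rw [← map_pow, hδ, map_natCast]⟩) (by
    intro p hp w hw
    haveI := charzero_cpt w
    have hw' := two_below (F := F) hw
    have H2 := (hTF _ hw').up (w := w)
    obtain ⟨s, s1, s2⟩ := H2.ex
    refine ⟨s, by rw [eval_fb hfcu]; exact s1, s2, ?_⟩
    have h7 := hp w hw'
    refine H2.loc s1 s2 ?_
    have e : (fb (MM i) f).map (algebraMap (MM i) (w.adicCompletion (MM i))) =
        cu (algebraMap (MM i) (w.adicCompletion (MM i)) (algebraMap F (MM i) A'))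
          (algebraMap (MM i) (w.adicCompletion (MM i)) (algebraMap F (MM i) B')) := by
      unfold fb
      rw [hfcu]
      unfold cu
      simp
    rw [← e]
    exact h7)
  rw [fo_scale hm] at h6
  exact h6

end Pool.Agent.H459.UT
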